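import Mathlib

set_option autoImplicit false

open Filter

namespace Pool.Agent.Results.MP_0ebc21_nt.ExpGrowth

/-- `binom(n,2) = n(n-1)/2` for every integer `n` (the product is even, so the division is exact). -/
def binom2 (n : ℤ) : ℤ := n * (n - 1) / 2

/-- The exponent `a * binom(n+1,2) + binom(n,2)` of `q` in the `n`-th term of `Ψ(-q^a,q)`. -/
def expo (a : ℕ) (n : ℤ) : ℤ := a * binom2 (n + 1) + binom2 n

/-- The coefficient of the `n`-th term of `Ψ(-q^a,q)`: `(-1)^binom(n+1,2)` for `n ≥ 0`,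
and `-(-1)^binom(n+1,2)` for `n ≤ -1` (note that `binom(n+1,2) ≥ 0`). -/
def sgn (n : ℤ) : ℤ := (if 0 ≤ n then 1 else -1) * (-1) ^ (binom2 (n + 1)).natAbs

/-- The false theta series `Ψ(-q^a,q)` as a formal power series in `q` over the integers: the
coefficient of `q^k` is the sum of the coefficients `sgn n` over the (finitely many, for
`a ≥ 1`) integers `n` with exponent `k`. -/
noncomputable def Psi (a : ℕ) : PowerSeries ℤ :=
  PowerSeries.mk fun k => ∑ᶠ n ∈ {n : ℤ | expo a n = (k : ℤ)}, sgn n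

lemma binom2_nat (n : ℕ) : binom2 (n : ℤ) = (n.choose 2 : ℤ) := by
  unfold binom2
  rw [Nat.choose_two_right]
  cases n with
  | zero => rfl
  | succ m => push_cast; simp

lemma binom2_neg (n : ℕ) : binom2 (-(n : ℤ)) = ((n + 1).choose 2 : ℤ) := by
  unfold binom2
  rw [Nat.choose_two_right, Nat.add_sub_cancel]
  push_cast
  congr 1
  ring

lemma expo_nat (a n : ℕ) : expo a (n : ℤ) = ((a * (n + 1).choose 2 + n.choose 2 : ℕ) : ℤ) := by
  unfold expo
  have : ((n : ℤ) + 1) = ((n + 1 : ℕ) : ℤ) := by push_cast; ring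
  rw [this, binom2_nat, binom2_nat]
  push_cast; ring

lemma expo_neg (a n : ℕ) :
    expo a (-((n : ℤ) + 1)) = ((a * (n + 1).choose 2 + (n + 2).choose 2 : ℕ) : ℤ) := by
  unfold expo
  have h1 : (-((n : ℤ) + 1) + 1) = -(n : ℤ) := by ring
  have h2 : (-((n : ℤ) + 1)) = -((n + 1 : ℕ) : ℤ) := by push_cast; ring
  rw [h1, binom2_neg, h2, binom2_neg]
  push_cast; ring

lemma sgn_nat (n : ℕ) : sgn (n : ℤ) = (-1) ^ ((n + 1).choose 2) := by
  unfold sgn
  have : ((n : ℤ) + 1) = ((n + 1 : ℕ) : ℤ) := by push_cast; ring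
  rw [this, binom2_nat]
  simp

lemma sgn_neg (n : ℕ) : sgn (-((n : ℤ) + 1)) = -(-1) ^ ((n + 1).choose 2) := by
  unfold sgn
  have h1 : (-((n : ℤ) + 1) + 1) = -(n : ℤ) := by ring
  rw [h1, binom2_neg, if_neg (by omega)]
  simp

lemma le_expo_nat (a n : ℕ) (ha : 1 ≤ a) : n ≤ a * (n + 1).choose 2 + n.choose 2 := by
  have h1 : n ≤ (n + 1).choose 2 := by
    rw [Nat.choose_succ_succ' n 1]; simp
  calc n ≤ (n + 1).choose 2 := h1
    _ ≤ a * (n + 1).choose 2 := Nat.le_mul_of_pos_left _ ha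
    _ ≤ _ := Nat.le_add_right _ _

lemma le_expo_neg (a n : ℕ) : n ≤ a * (n + 1).choose 2 + (n + 2).choose 2 := by
  have h1 : n ≤ (n + 2).choose 2 := by
    rw [Nat.choose_succ_succ' (n + 1) 1]; simp; omega
  omega

/-- The exponent of the `n`-th term, as a natural number. -/
noncomputable def ex (a : ℕ) (n : ℤ) : ℕ := (expo a n).toNat

lemma ex_nat (a n : ℕ) : ex a (n : ℤ) = a * (n + 1).choose 2 + n.choose 2 := by
  unfold ex; rw [expo_nat, Int.toNat_natCast]

lemma ex_neg (a n : ℕ) : ex a (-((n : ℤ) + 1)) = a * (n + 1).choose 2 + (n + 2).choose 2 := by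
  unfold ex; rw [expo_neg, Int.toNat_natCast]

lemma expo_nonneg (a : ℕ) (n : ℤ) : 0 ≤ expo a n := by
  rcases le_or_gt 0 n with h | h
  · obtain ⟨m, rfl⟩ := Int.eq_ofNat_of_zero_le h
    rw [expo_nat]; positivity
  · obtain ⟨m, hm⟩ : ∃ m : ℕ, n = -((m : ℤ) + 1) := ⟨(-n - 1).toNat, by omega⟩
    rw [hm, expo_neg]; positivity

lemma expo_eq_iff (a : ℕ) (n : ℤ) (k : ℕ) : expo a n = (k : ℤ) ↔ ex a n = k := by
  unfold ex
  have := expo_nonneg a n
  omega

lemma finite_fiber (a : ℕ) (ha : 1 ≤ a) (k : ℕ) : {n : ℤ | expo a n = (k : ℤ)}.Finite := by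
  apply Set.Finite.subset (Set.finite_Icc (-(k : ℤ) - 1) (k + 1))
  intro n hn
  change expo a n = (k : ℤ) at hn
  rw [expo_eq_iff] at hn
  rcases le_or_gt 0 n with h | h
  · obtain ⟨m, rfl⟩ := Int.eq_ofNat_of_zero_le h
    rw [ex_nat] at hn
    have := le_expo_nat a m ha
    simp only [Set.mem_Icc]
    omega
  · obtain ⟨m, hm⟩ : ∃ m : ℕ, n = -((m : ℤ) + 1) := ⟨(-n - 1).toNat, by omega⟩
    subst hm
    rw [ex_neg] at hn
    have := le_expo_neg a m
    simp only [Set.mem_Icc]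
    omega

/-- The `n`-th term evaluated at a real number `x`. -/
noncomputable def term (a : ℕ) (x : ℝ) (n : ℤ) : ℝ := (sgn n : ℝ) * x ^ (ex a n)

lemma abs_sgn (n : ℤ) : |(sgn n : ℝ)| = 1 := by
  unfold sgn
  push_cast
  rw [abs_mul, abs_pow]
  split_ifs <;> simp

lemma summable_term (a : ℕ) (ha : 1 ≤ a) (x : ℝ) (hx0 : 0 ≤ x) (hx1 : x < 1) :
    Summable (fun n : ℤ => ‖term a x n‖) := by
  have hgeo := summable_geometric_of_lt_one hx0 hx1
  apply Summable.of_nat_of_neg_add_one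
  · apply Summable.of_nonneg_of_le (fun _ => norm_nonneg _) _ hgeo
    intro n
    unfold term
    rw [Real.norm_eq_abs, abs_mul, abs_sgn, one_mul, abs_pow, abs_of_nonneg hx0, ex_nat]
    exact pow_le_pow_of_le_one hx0 hx1.le (le_expo_nat a n ha)
  · apply Summable.of_nonneg_of_le (fun _ => norm_nonneg _) _ hgeo
    intro n
    unfold term
    rw [Real.norm_eq_abs, abs_mul, abs_sgn, one_mul, abs_pow, abs_of_nonneg hx0, ex_neg]
    exact pow_le_pow_of_le_one hx0 hx1.le (le_expo_neg a n)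

/-- The power series evaluated at `x` equals the sum of the terms. -/
lemma hasSum_coeff (a : ℕ) (ha : 1 ≤ a) (x : ℝ) (hx0 : 0 ≤ x) (hx1 : x < 1) :
    HasSum (fun k : ℕ => ((PowerSeries.coeff k (Psi a) : ℤ) : ℝ) * x ^ k) (∑' n : ℤ, term a x n) := by
  have h := (summable_term a ha x hx0 hx1).of_norm.hasSum.tsum_fiberwise (ex a)
  have hfun : (fun k : ℕ => ((PowerSeries.coeff k (Psi a) : ℤ) : ℝ) * x ^ k)
      = (fun c => ∑' (b : ↑(ex a ⁻¹' {c})), term a x ↑b) := by
   funext k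
   have hfin := finite_fiber a ha k
   have hset : (ex a ⁻¹' {k}) = {n : ℤ | expo a n = (k : ℤ)} := by
     ext n; simp [expo_eq_iff]
   unfold Psi
   rw [PowerSeries.coeff_mk, finsum_mem_eq_finite_toFinset_sum _ hfin, hset]
   have : Fintype {n : ℤ | expo a n = (k : ℤ)} := hfin.fintype
   rw [tsum_fintype, ← Finset.sum_subtype hfin.toFinset (by simp) (fun n => term a x n)]
   push_cast
   rw [Finset.sum_mul]
   apply Finset.sum_congr rfl
   intro n hn
   unfold term
   have : ex a n = k := by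
     rw [← expo_eq_iff]; simpa using hn
   rw [this]
  rw [hfun]
  exact h

/-- The sum of the terms as a function of `x`. -/
noncomputable def G (a : ℕ) (x : ℝ) : ℝ := ∑' n : ℤ, term a x n

lemma continuousOn_G (a : ℕ) (ha : 1 ≤ a) (r : ℝ) (hr0 : 0 ≤ r) (hr1 : r < 1) :
    ContinuousOn (G a) (Set.Icc 0 r) := by
  unfold G
  apply continuousOn_tsum (u := fun n : ℤ => ‖term a r n‖)
  · intro n
    unfold term
    fun_prop
  · exact summable_term a ha r hr0 hr1
  · intro n x hx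
    unfold term
    rw [Real.norm_eq_abs, Real.norm_eq_abs, abs_mul, abs_mul, abs_sgn, one_mul, one_mul, abs_pow,
      abs_pow, abs_of_nonneg hx.1, abs_of_nonneg hr0]
    exact pow_le_pow_left₀ hx.1 hx.2 _

lemma G_zero (a : ℕ) (ha : 1 ≤ a) : G a 0 = 1 := by
  unfold G
  rw [tsum_eq_single 0]
  · have h0 : ex a 0 = 0 := by
      have := ex_nat a 0
      simpa using this
    have h1 : sgn 0 = 1 := by
      have := sgn_nat 0
      simpa using this
    unfold term
    rw [h0, h1]; simp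
  · intro n hn
    have : ex a n ≠ 0 := by
      rcases le_or_gt 0 n with h | h
      · obtain ⟨m, rfl⟩ := Int.eq_ofNat_of_zero_le h
        rw [ex_nat]
        have := le_expo_nat a m ha
        omega
      · obtain ⟨m, hm⟩ : ∃ m : ℕ, n = -((m : ℤ) + 1) := ⟨(-n - 1).toNat, by omega⟩
        subst hm
        rw [ex_neg]
        have : 0 < (m + 2).choose 2 := Nat.choose_pos (by omega)
        omega
    unfold term
    rw [zero_pow this, mul_zero]

/-- The two terms `n` and `-(n+1)` together. -/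
noncomputable def block (a : ℕ) (x : ℝ) (n : ℕ) : ℝ :=
  (-1) ^ ((n + 1).choose 2) * (x ^ a) ^ ((n + 1).choose 2) * (x ^ (n.choose 2) - x ^ ((n + 2).choose 2))

lemma G_eq (a : ℕ) (ha : 1 ≤ a) (x : ℝ) (hx0 : 0 ≤ x) (hx1 : x < 1) :
    HasSum (block a x) (G a x) := by
  have hs := (summable_term a ha x hx0 hx1).of_norm
  have h1 : Summable (fun n : ℕ => term a x (n : ℤ)) :=
    hs.comp_injective (fun m n h => by simpa using h)
  have h2 : Summable (fun n : ℕ => term a x (-((n : ℤ) + 1))) :=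
    hs.comp_injective (i := fun n : ℕ => -((n : ℤ) + 1)) (fun m n h => by simp at h; omega)
  unfold G
  rw [tsum_of_nat_of_neg_add_one h1 h2]
  have h3 := h1.hasSum.add h2.hasSum
  have hfun : block a x = fun n : ℕ => term a x (n : ℤ) + term a x (-((n : ℤ) + 1)) := by
    funext n
    unfold block term
    rw [sgn_nat, sgn_neg, ex_nat, ex_neg]
    push_cast
    rw [pow_add, pow_add, pow_mul]
    ring
  rw [hfun]
  exact h3

lemma le_choose_four (n : ℕ) : 6 + 4 * n ≤ (n + 3 + 1).choose 2 := by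
  induction n with
  | zero => decide
  | succ m ih =>
    rw [Nat.choose_succ_succ' (m + 1 + 3) 1, Nat.choose_one_right]
    have h1 : m + 3 + 1 = m + 1 + 3 := by ring
    rw [h1] at ih
    have h2 : (m + 1 + 3).choose (1 + 1) = (m + 1 + 3).choose 2 := rfl
    omega

lemma G_neg (a : ℕ) (ha : 1 ≤ a) (x : ℝ) (hx0 : 3 / 5 ≤ x) (hx1 : x < 1) (hxa : x ^ a = 3 / 5) :
    G a x < 0 := by
  have hx0' : 0 ≤ x := by linarith
  have hs := G_eq a ha x hx0' hx1
  -- bound on the tail blocks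
  have htail : ∀ n : ℕ, block a x (n + 3) ≤ (1 - x) * (7 * (3 / 5) ^ 6) * ((9 / 7) * (3 / 5) ^ 4) ^ n := by
    intro n
    have hc2 : (n + 3 + 2).choose 2 = (n + 3).choose 2 + (2 * n + 7) := by
      rw [Nat.choose_succ_succ' (n + 3 + 1) 1, Nat.choose_succ_succ' (n + 3) 1]; simp; ring
    have hc1 : 6 + 4 * n ≤ (n + 3 + 1).choose 2 := le_choose_four n
    have hb : |block a x (n + 3)| ≤ (1 - x) * (7 * (3 / 5) ^ 6) * ((9 / 7) * (3 / 5) ^ 4) ^ n := by
      unfold block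
      rw [abs_mul, abs_mul, abs_pow, abs_neg, abs_one, one_pow, one_mul, hxa, abs_pow,
        abs_of_nonneg (by norm_num : (0 : ℝ) ≤ 3 / 5), hc2, pow_add]
      have e1 : x ^ (n + 3).choose 2 - x ^ (n + 3).choose 2 * x ^ (2 * n + 7)
          = x ^ (n + 3).choose 2 * (1 - x ^ (2 * n + 7)) := by ring
      rw [e1]
      have h1 : 0 ≤ 1 - x ^ (2 * n + 7) := sub_nonneg.2 (pow_le_one₀ hx0' hx1.le)
      have h2 : 1 - x ^ (2 * n + 7) ≤ (2 * n + 7) * (1 - x) := by
        have := one_add_mul_le_pow (a := x - 1) (by linarith) (2 * n + 7)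
        have e : 1 + (x - 1) = x := by ring
        rw [e] at this
        push_cast at this
        nlinarith
      have h3 : x ^ (n + 3).choose 2 ≤ 1 := pow_le_one₀ hx0' hx1.le
      have h3' : 0 ≤ x ^ (n + 3).choose 2 := by positivity
      rw [abs_of_nonneg (mul_nonneg h3' h1)]
      have h4 : x ^ (n + 3).choose 2 * (1 - x ^ (2 * n + 7)) ≤ (2 * n + 7) * (1 - x) := by
        calc _ ≤ 1 * (1 - x ^ (2 * n + 7)) := mul_le_mul_of_nonneg_right h3 h1
          _ ≤ _ := by rw [one_mul]; exact h2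
      have h5 : (3 / 5 : ℝ) ^ (n + 3 + 1).choose 2 ≤ (3 / 5) ^ (6 + 4 * n) :=
        pow_le_pow_of_le_one (by norm_num) (by norm_num) hc1
      have h6 : (2 * (n : ℝ) + 7) ≤ 7 * (9 / 7) ^ n := by
        have := one_add_mul_le_pow (a := (2 / 7 : ℝ)) (by norm_num) n
        have e : (1 + 2 / 7 : ℝ) = 9 / 7 := by norm_num
        rw [e] at this
        nlinarith
      have hx1' : 0 < 1 - x := by linarith
      calc (3 / 5 : ℝ) ^ (n + 3 + 1).choose 2 * (x ^ (n + 3).choose 2 * (1 - x ^ (2 * n + 7)))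
          ≤ (3 / 5) ^ (6 + 4 * n) * ((2 * n + 7) * (1 - x)) := by
            apply mul_le_mul h5 h4 (mul_nonneg h3' h1) (by positivity)
        _ ≤ (3 / 5) ^ (6 + 4 * n) * ((7 * (9 / 7) ^ n) * (1 - x)) := by
            apply mul_le_mul_of_nonneg_left _ (by positivity)
            exact mul_le_mul_of_nonneg_right h6 hx1'.le
        _ = (1 - x) * (7 * (3 / 5) ^ 6) * ((9 / 7) * (3 / 5) ^ 4) ^ n := by
            rw [pow_add, pow_mul, mul_pow]; ring
    exact (le_abs_self _).trans hb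
  have hr0 : (0 : ℝ) ≤ (9 / 7) * (3 / 5) ^ 4 := by norm_num
  have hr1 : (9 / 7 : ℝ) * (3 / 5) ^ 4 < 1 := by norm_num
  have hsum := hs.summable
  have hsplit := hsum.sum_add_tsum_nat_add 3
  have hGs : ∑' n, block a x n = G a x := hs.tsum_eq
  have hle : ∑' n, block a x (n + 3) ≤ (1 - x) * (7 * (3 / 5) ^ 6) * (1 - (9 / 7) * (3 / 5) ^ 4)⁻¹ := by
    rw [← tsum_geometric_of_lt_one hr0 hr1, ← tsum_mul_left]
    apply Summable.tsum_le_tsum htail
    · exact (summable_nat_add_iff 3).2 hsum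
    · exact (summable_geometric_of_lt_one hr0 hr1).mul_left _
  rw [hGs] at hsplit
  have hb0 : ∑ i ∈ Finset.range 3, block a x i
      = (1 - x) * (1 - (3 / 5) * (1 + x + x ^ 2) - (3 / 5) ^ 3 * x * (1 + x + x ^ 2 + x ^ 3 + x ^ 4)) := by
    have c0 : (0 + 1).choose 2 = 0 := by decide
    have c1 : (1 + 1).choose 2 = 1 := by decide
    have c2 : (2 + 1).choose 2 = 3 := by decide
    have d0 : (0 : ℕ).choose 2 = 0 := by decide
    have d1 : (1 : ℕ).choose 2 = 0 := by decide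
    have d2 : (2 : ℕ).choose 2 = 1 := by decide
    have e0 : (0 + 2).choose 2 = 1 := by decide
    have e1 : (1 + 2).choose 2 = 3 := by decide
    have e2 : (2 + 2).choose 2 = 6 := by decide
    simp [Finset.sum_range_succ, block, hxa, d2, e2, c2]
    ring
  have hx1' : 0 < 1 - x := by linarith
  have hnum : 1 - (3 / 5) * (1 + x + x ^ 2) - (3 / 5) ^ 3 * x * (1 + x + x ^ 2 + x ^ 3 + x ^ 4)
      + (7 * (3 / 5) ^ 6) * (1 - (9 / 7) * (3 / 5) ^ 4)⁻¹ < 0 := by
    have a2 : (3 / 5) ^ 2 ≤ x ^ 2 := pow_le_pow_left₀ (by norm_num) hx0 2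
    have a3 : (3 / 5) ^ 3 ≤ x ^ 3 := pow_le_pow_left₀ (by norm_num) hx0 3
    have a4 : (3 / 5) ^ 4 ≤ x ^ 4 := pow_le_pow_left₀ (by norm_num) hx0 4
    have a5 : (3 / 5) ^ 5 ≤ x ^ 5 := pow_le_pow_left₀ (by norm_num) hx0 5
    have : (3 / 5 : ℝ) ^ 3 * x * (1 + x + x ^ 2 + x ^ 3 + x ^ 4)
      = (3 / 5) ^ 3 * (x + x ^ 2 + x ^ 3 + x ^ 4 + x ^ 5) := by ring
    rw [this]
    norm_num at a2 a3 a4 a5 ⊢
    linarith
  have hfin : G a x ≤ (1 - x) * (1 - (3 / 5) * (1 + x + x ^ 2)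
      - (3 / 5) ^ 3 * x * (1 + x + x ^ 2 + x ^ 3 + x ^ 4)
      + (7 * (3 / 5) ^ 6) * (1 - (9 / 7) * (3 / 5) ^ 4)⁻¹) := by
    rw [← hsplit, hb0]
    linarith
  exact lt_of_le_of_lt hfin (mul_neg_of_pos_of_neg hx1' hnum)

/-- The constant coefficient of `Ψ(-q^a,q)` is `1`. -/
lemma constantCoeff_Psi (a : ℕ) (ha : 1 ≤ a) : PowerSeries.constantCoeff (Psi a) = 1 := by
  have h := (hasSum_coeff a ha 0 le_rfl one_pos).tsum_eq
  rw [tsum_eq_single 0 (by intro k hk; simp [hk])] at h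
  have h0 : ∑' n : ℤ, term a 0 n = 1 := G_zero a ha
  rw [h0] at h
  simp only [pow_zero, mul_one] at h
  have : PowerSeries.coeff 0 (Psi a) = 1 := by exact_mod_cast h
  simpa using this

/-- **Exponential growth for every `a ≥ 1`.**  The reciprocal `1/Ψ(-q^a,q) = ∑ c_a(n) q^n` exists
as a power series with integer coefficients, and `|c_a(n)| ≥ β^n` for infinitely many `n`,
for every `β ≥ 0` with `β^a < 5/3`; in particular for some `β > 1`. -/
theorem result (a : ℕ) (ha : 1 ≤ a) :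
    ∃ c : ℕ → ℤ, PowerSeries.mk c * Psi a = 1 ∧
      (∃ β : ℝ, 1 < β ∧ {n : ℕ | β ^ n ≤ |(c n : ℝ)|}.Infinite) ∧
      (∀ β : ℝ, 0 ≤ β → β ^ a < 5 / 3 → {n : ℕ | β ^ n ≤ |(c n : ℝ)|}.Infinite) := by
  have hinv : Psi a * (Psi a).invOfUnit 1 = 1 :=
    PowerSeries.mul_invOfUnit _ _ (by rw [constantCoeff_Psi a ha]; rfl)
  set C : PowerSeries ℤ := (Psi a).invOfUnit 1 with hC
  have ha0 : a ≠ 0 := by omega
  have haR : (0 : ℝ) < a := by exact_mod_cast (by omega : 0 < a)
  -- the point `q` with `q^a = 3/5`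
  set q : ℝ := (3 / 5 : ℝ) ^ ((a : ℝ)⁻¹) with hq
  have hqa : q ^ a = 3 / 5 := by
    rw [hq, ← Real.rpow_natCast, ← Real.rpow_mul (by norm_num), inv_mul_cancel₀ haR.ne', Real.rpow_one]
  have hq0 : 0 < q := by rw [hq]; positivity
  have hq1 : q < 1 := by
    rw [hq]; exact Real.rpow_lt_one (by norm_num) (by norm_num) (by positivity)
  have hq35 : 3 / 5 ≤ q := by
    rw [← hqa]
    calc q ^ a ≤ q ^ 1 := pow_le_pow_of_le_one hq0.le hq1.le ha
      _ = q := pow_one q
  have hneg : G a q < 0 := G_neg a ha q hq35 hq1 hqa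
  -- a zero of the series in `(0,q)`
  obtain ⟨x, hx, hGx⟩ := intermediate_value_Icc' hq0.le (continuousOn_G a ha q hq0.le hq1)
    (show (0 : ℝ) ∈ Set.Icc (G a q) (G a 0) by rw [G_zero a ha]; exact ⟨hneg.le, zero_le_one⟩)
  have hx1 : x < 1 := lt_of_le_of_lt hx.2 hq1
  -- main claim
  have key : ∀ β : ℝ, 0 ≤ β → β ^ a < 5 / 3 →
      {n : ℕ | β ^ n ≤ |((PowerSeries.coeff n C : ℤ) : ℝ)|}.Infinite := by
    intro β hβ0 hβa hfin
    have hβx0 : 0 ≤ β * x := mul_nonneg hβ0 hx.1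
    have hβx1 : β * x < 1 := by
      have h1 : (β * x) ^ a < 1 ^ a := by
        rw [mul_pow, one_pow]
        have h2 : x ^ a ≤ 3 / 5 := by rw [← hqa]; exact pow_le_pow_left₀ hx.1 hx.2 a
        have h3 : 0 ≤ x ^ a := pow_nonneg hx.1 a
        have h4 : 0 ≤ β ^ a := pow_nonneg hβ0 a
        calc β ^ a * x ^ a ≤ β ^ a * (3 / 5) := mul_le_mul_of_nonneg_left h2 h4
          _ < 5 / 3 * (3 / 5) := mul_lt_mul_of_pos_right hβa (by norm_num)
          _ = 1 := by norm_num
      exact lt_of_pow_lt_pow_left₀ a (by norm_num) h1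
    have hsC : Summable (fun n : ℕ => ‖((PowerSeries.coeff n C : ℤ) : ℝ) * x ^ n‖) := by
      obtain ⟨N, hN⟩ := hfin.bddAbove
      rw [← summable_nat_add_iff (N + 1)]
      apply Summable.of_nonneg_of_le (fun _ => norm_nonneg _) _
        ((summable_nat_add_iff (N + 1)).2 (summable_geometric_of_lt_one hβx0 hβx1))
      intro n
      have hn : ¬ (β ^ (n + (N + 1)) ≤ |((PowerSeries.coeff (n + (N + 1)) C : ℤ) : ℝ)|) := by
        intro h
        have := hN h
        omega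
      rw [not_le] at hn
      rw [Real.norm_eq_abs, abs_mul, abs_pow, abs_of_nonneg hx.1, mul_pow]
      exact mul_le_mul_of_nonneg_right hn.le (pow_nonneg hx.1 _)
    have hsP : HasSum (fun k : ℕ => ((PowerSeries.coeff k (Psi a) : ℤ) : ℝ) * x ^ k) 0 := by
      have := hasSum_coeff a ha x hx.1 hx1
      have h0 : ∑' n : ℤ, term a x n = 0 := hGx
      rwa [h0] at this
    have hprod := tsum_mul_tsum_eq_tsum_sum_antidiagonal_of_summable_norm
      (f := fun k : ℕ => ((PowerSeries.coeff k (Psi a) : ℤ) : ℝ) * x ^ k)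
      (g := fun n : ℕ => ((PowerSeries.coeff n C : ℤ) : ℝ) * x ^ n) hsP.summable.norm hsC
    rw [hsP.tsum_eq, zero_mul] at hprod
    have hone : ∀ n : ℕ, ∑ kl ∈ Finset.HasAntidiagonal.antidiagonal n,
        (((PowerSeries.coeff kl.1 (Psi a) : ℤ) : ℝ) * x ^ kl.1) *
          (((PowerSeries.coeff kl.2 C : ℤ) : ℝ) * x ^ kl.2)
        = if n = 0 then 1 else 0 := by
      intro n
      have h1 := congrArg (PowerSeries.coeff n) hinv
      rw [PowerSeries.coeff_mul, PowerSeries.coeff_one] at h1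
      have h2 : (∑ kl ∈ Finset.HasAntidiagonal.antidiagonal n, ((PowerSeries.coeff kl.1 (Psi a) : ℤ) : ℝ) *
          ((PowerSeries.coeff kl.2 C : ℤ) : ℝ)) = if n = 0 then 1 else 0 := by
        exact_mod_cast h1
      have h3 : ∑ kl ∈ Finset.HasAntidiagonal.antidiagonal n,
          (((PowerSeries.coeff kl.1 (Psi a) : ℤ) : ℝ) * x ^ kl.1) *
            (((PowerSeries.coeff kl.2 C : ℤ) : ℝ) * x ^ kl.2)
          = (∑ kl ∈ Finset.HasAntidiagonal.antidiagonal n, ((PowerSeries.coeff kl.1 (Psi a) : ℤ) : ℝ) *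
          ((PowerSeries.coeff kl.2 C : ℤ) : ℝ)) * x ^ n := by
        rw [Finset.sum_mul]
        apply Finset.sum_congr rfl
        intro kl hkl
        rw [← Finset.HasAntidiagonal.mem_antidiagonal.1 hkl, pow_add]
        ring
      rw [h3, h2]
      split_ifs with h
      · subst h; simp
      · simp
    rw [tsum_congr hone, tsum_ite_eq] at hprod
    exact zero_ne_one hprod
  refine ⟨fun n => PowerSeries.coeff n C, ?_, ?_, key⟩
  · have : PowerSeries.mk (fun n => PowerSeries.coeff n C) = C := by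
      ext n; rw [PowerSeries.coeff_mk]
    rw [this, mul_comm]
    exact hinv
  · refine ⟨(4 / 3 : ℝ) ^ ((a : ℝ)⁻¹), Real.one_lt_rpow (by norm_num) (by positivity), ?_⟩
    apply key _ (by positivity)
    rw [← Real.rpow_natCast, ← Real.rpow_mul (by norm_num), inv_mul_cancel₀ haR.ne', Real.rpow_one]
    norm_num

end Pool.Agent.Results.MP_0ebc21_nt.ExpGrowth
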